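import Pool.Agent.H87.SH.Targets

namespace Pool.Agent.H13.SH
open Pool.Agent.H87.SN Pool.Agent.H87.SH
open MeasureTheory Metric Set Filter Topology
open scoped ContDiff RealInnerProductSpace ENNReal

theorem hasDerivAt_pos (k : ℕ) (t : ℝ) :
    HasDerivAt (fun s : ℝ => (max 0 s) ^ (k + 2)) ((k + 2 : ℕ) * (max 0 t) ^ (k + 1)) t := by
  rcases lt_trichotomy t 0 with h | h | h
  · have e : (fun s : ℝ => (max 0 s) ^ (k + 2)) =ᶠ[𝓝 t] fun _ => 0 := by
      filter_upwards [Iio_mem_nhds h] with s hs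
      rw [max_eq_left (le_of_lt hs)]
      simp
    rw [max_eq_left h.le]
    simp only [ne_eq, Nat.add_eq_zero_iff, one_ne_zero, and_false, not_false_eq_true, zero_pow,
      mul_zero]
    exact (hasDerivAt_const t (0 : ℝ)).congr_of_eventuallyEq e
  · subst h
    rw [max_self]
    simp only [ne_eq, Nat.add_eq_zero_iff, one_ne_zero, and_false, not_false_eq_true, zero_pow,
      mul_zero]
    have hO : (fun s : ℝ => (max 0 s) ^ (k + 2)) =O[𝓝 0] fun s => ‖s - 0‖ ^ (k + 2) := by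
      apply Asymptotics.IsBigO.of_bound 1
      filter_upwards with s
      rw [one_mul, sub_zero, norm_pow, norm_pow, norm_norm]
      gcongr
      rw [Real.norm_eq_abs, Real.norm_eq_abs]
      rcases le_total s 0 with h | h
      · rw [max_eq_left h, abs_zero]; exact abs_nonneg s
      · rw [max_eq_right h]
    have h2 : HasFDerivAt (fun s : ℝ => (max 0 s) ^ (k + 2)) (0 : ℝ →L[ℝ] ℝ) 0 :=
      hO.hasFDerivAt (by omega)
    simpa using h2.hasDerivAt
  · have e : (fun s : ℝ => (max 0 s) ^ (k + 2)) =ᶠ[𝓝 t] fun s => s ^ (k + 2) := by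
      filter_upwards [Ioi_mem_nhds h] with s hs
      rw [max_eq_right (le_of_lt hs)]
    rw [max_eq_right h.le]
    have := hasDerivAt_pow (k + 2) t
    exact (this.congr_of_eventuallyEq e)

theorem contDiff_pos (k : ℕ) : ContDiff ℝ 1 (fun s : ℝ => (max 0 s) ^ (k + 2)) := by
  rw [contDiff_one_iff_deriv]
  refine ⟨fun t => (hasDerivAt_pos k t).differentiableAt, ?_⟩
  have : deriv (fun s : ℝ => (max 0 s) ^ (k + 2)) =
      fun t => ((k + 2 : ℕ) : ℝ) * (max 0 t) ^ (k + 1) := by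
    ext t; exact (hasDerivAt_pos k t).deriv
  rw [this]
  fun_prop

theorem hasFDerivAt_pos {n : ℕ} (k : ℕ) (v : E n) :
    HasFDerivAt (fun x : E n => (max 0 (1 - ‖x‖ ^ 2)) ^ (k + 2))
      ((((k + 2 : ℕ) : ℝ) * (max 0 (1 - ‖v‖ ^ 2)) ^ (k + 1)) •
        (-((2 : ℕ) • (innerSL ℝ v : E n →L[ℝ] ℝ)) : E n →L[ℝ] ℝ)) v := by
  have h1 : HasFDerivAt (fun x : E n => 1 - ‖x‖ ^ 2)
      (-((2 : ℕ) • (innerSL ℝ v : E n →L[ℝ] ℝ)) : E n →L[ℝ] ℝ) v := by
    have := (hasStrictFDerivAt_norm_sq v).hasFDerivAt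
    exact this.const_sub 1
  exact (hasDerivAt_pos k (1 - ‖v‖ ^ 2)).comp_hasFDerivAt v h1

theorem pf_PHI : T_PHI := by
  intro n
  have hc1 : ContDiff ℝ 1 (phi (n := n)) := by
    have : (phi (n := n)) = (fun s : ℝ => (max 0 s) ^ (1 + 2)) ∘ fun v : E n => 1 - ‖v‖ ^ 2 := rfl
    rw [this]
    exact (contDiff_pos 1).comp (contDiff_const.sub (contDiff_norm_sq ℝ))
  have hc2 : ContDiff ℝ 1 (psi (n := n)) := by
    have : (psi (n := n)) = fun v => ((fun s : ℝ => (max 0 s) ^ (2 + 2)) ∘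
      fun v : E n => 1 - ‖v‖ ^ 2) v / 8 := rfl
    rw [this]
    exact ((contDiff_pos 2).comp (contDiff_const.sub (contDiff_norm_sq ℝ))).div_const 8
  have hf1 : ∀ v w : E n, fderiv ℝ phi v w = - (6 * (max 0 (1 - ‖v‖ ^ 2)) ^ 2 * ⟪v, w⟫) := by
    intro v w
    have h := (hasFDerivAt_pos (n := n) 1 v).fderiv
    have e : (phi (n := n)) = fun x : E n => (max 0 (1 - ‖x‖ ^ 2)) ^ (1 + 2) := rfl
    rw [e, h]
    simp
    ring
  have hf2 : ∀ v w : E n, fderiv ℝ psi v w = - (phi v * ⟪v, w⟫) := by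
    intro v w
    have h := ((hasFDerivAt_pos (n := n) 2 v).mul_const (1 / 8 : ℝ)).fderiv
    have e : (psi (n := n)) = fun x : E n => (max 0 (1 - ‖x‖ ^ 2)) ^ (2 + 2) * (1 / 8) := by
      ext x; unfold psi; ring
    rw [e, h]
    simp [phi]
    ring
  have hm : ∀ v : E n, 0 ≤ max 0 (1 - ‖v‖ ^ 2) ∧ max 0 (1 - ‖v‖ ^ 2) ≤ 1 := by
    intro v
    refine ⟨le_max_left _ _, max_le zero_le_one ?_⟩
    have := sq_nonneg ‖v‖
    linarith
  have hb1 : ∀ v : E n, 0 ≤ phi v ∧ phi v ≤ 1 := fun v =>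
    ⟨pow_nonneg (hm v).1 3, pow_le_one₀ (hm v).1 (hm v).2⟩
  have hb2 : ∀ v : E n, 0 ≤ psi v ∧ psi v ≤ phi v / 8 := by
    intro v
    refine ⟨div_nonneg (pow_nonneg (hm v).1 4) (by norm_num), ?_⟩
    unfold psi phi
    have := pow_le_pow_of_le_one (hm v).1 (hm v).2 (by norm_num : 3 ≤ 4)
    linarith
  have hz : ∀ v : E n, 1 ≤ ‖v‖ → phi v = 0 ∧ psi v = 0 := by
    intro v hv
    have h0 : max 0 (1 - ‖v‖ ^ 2) = 0 := by
      apply max_eq_left
      nlinarith
    unfold phi psi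
    rw [h0]
    norm_num
  have hl : ∀ v : E n, ‖v‖ ≤ 1 / 2 → 27 / 64 ≤ phi v := by
    intro v hv
    have h1 : (3 / 4 : ℝ) ≤ max 0 (1 - ‖v‖ ^ 2) := by
      apply le_max_of_le_right
      have := norm_nonneg v
      nlinarith
    unfold phi
    calc (27 / 64 : ℝ) = (3 / 4) ^ 3 := by norm_num
      _ ≤ _ := by gcongr
  have hz1 : ∀ v : E n, v ∉ closedBall (0 : E n) 1 → phi v = 0 ∧ psi v = 0 := by
    intro v hv
    apply hz
    rw [mem_closedBall, dist_zero_right, not_le] at hv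
    exact hv.le
  have hs1 : HasCompactSupport (phi (n := n)) :=
    HasCompactSupport.intro (isCompact_closedBall 0 1) fun v hv => (hz1 v hv).1
  have hs2 : HasCompactSupport (psi (n := n)) :=
    HasCompactSupport.intro (isCompact_closedBall 0 1) fun v hv => (hz1 v hv).2
  refine ⟨hc1, hc2, hf1, hf2, hb1, hb2, hz, hl, hs1, hs2, ?_, ?_, ?_⟩
  · apply closure_minimal _ isClosed_closedBall
    intro v hv
    by_contra h
    exact hv (hz1 v h).1
  · apply closure_minimal _ isClosed_closedBall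
    intro v hv
    by_contra h
    exact hv (hz1 v h).2
  · apply Continuous.integral_pos_of_hasCompactSupport_nonneg_nonzero hc1.continuous hs1
      (fun v => (hb1 v).1) (x := 0)
    have := hl 0 (by simp)
    intro h
    rw [h] at this
    norm_num at this

end Pool.Agent.H13.SH
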