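import Pool.Agent.H80.SH.Targets

/-!
# Number of the clauses violated by two points: proof of T_PRS
-/

set_option autoImplicit false

namespace Pool.Agent.H13.SH

open Finset Pool.Agent.H80.SH

theorem cnt {n : ℕ} (U : Finset (Fin n)) (x : Fin n → Bool) :
    (univ.filter (fun z : Fin n → Bool => ∀ i ∈ U, z i = x i)).card * 2 ^ U.card = 2 ^ n := by
  have h1 : univ.filter (fun z : Fin n → Bool => ∀ i ∈ U, z i = x i) =
      Fintype.piFinset (fun i => if i ∈ U then {x i} else univ) := by
    ext z
    simp only [mem_filter, mem_univ, true_and, Fintype.mem_piFinset]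
    constructor
    · intro h i
      by_cases hi : i ∈ U
      · simp [hi, h i hi]
      · simp [hi]
    · intro h i hi
      have := h i
      simpa [hi] using this
  rw [h1, Fintype.card_piFinset]
  have h2 : ∀ i : Fin n, (if i ∈ U then ({x i} : Finset Bool) else univ).card =
      if i ∈ U then 1 else 2 := by
    intro i
    by_cases hi : i ∈ U <;> simp [hi]
  simp_rw [h2]
  have h3 : (2 : ℕ) ^ U.card = ∏ i : Fin n, if i ∈ U then 2 else 1 := by
    rw [prod_ite]
    simp
  rw [h3, ← prod_mul_distrib]
  have h4 : ∀ i : Fin n, ((if i ∈ U then 1 else 2) * if i ∈ U then 2 else 1) = 2 := by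
    intro i
    by_cases hi : i ∈ U <;> simp [hi]
  simp_rw [h4]
  simp

theorem card_sub {n : ℕ} (w : ℕ) (Ag : Finset (Fin n)) :
    (univ.filter (fun U : {U : Finset (Fin n) // U.card = w} => U.1 ⊆ Ag)).card =
      Ag.card.choose w := by
  rw [← card_powersetCard, ← card_map (Function.Embedding.subtype _)]
  refine congrArg Finset.card ?_
  ext U
  simp only [mem_map, mem_filter, mem_univ, true_and, Function.Embedding.subtype_apply,
    Subtype.exists, exists_and_left, exists_prop, exists_eq_right_right, mem_powersetCard]

theorem two {n w : ℕ} (x y : Fin n → Bool) :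
    (univ.filter (fun c : Cl n w => x ∈ VC c ∧ y ∈ VC c)).card * 2 ^ w =
      (n - Pool.Agent.H80.SH.dist x y).choose w * 2 ^ n := by
  classical
  set Ag : Finset (Fin n) := univ.filter (fun i => x i = y i) with hAg
  have hAgc : Ag.card = n - Pool.Agent.H80.SH.dist x y := by
    have := card_filter_add_card_filter_not (s := (univ : Finset (Fin n)))
      (fun i => x i = y i)
    simp only [card_univ, Fintype.card_fin] at this
    change Ag.card + Pool.Agent.H80.SH.dist x y = n at this
    omega
  rw [← hAgc, ← card_sub, card_filter, card_filter, Fintype.sum_prod_type, sum_mul, sum_mul]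
  refine sum_congr rfl fun U _ => ?_
  by_cases hU : U.1 ⊆ Ag
  · rw [if_pos hU, one_mul, ← cnt U.1 x, ← card_filter, U.2]
    congr 2
    ext z
    simp only [mem_filter, mem_univ, true_and, VC]
    constructor
    · rintro ⟨h1, -⟩ i hi
      exact (h1 i hi).symm
    · intro h
      refine ⟨fun i hi => (h i hi).symm, fun i hi => ?_⟩
      have := hU hi
      simp only [hAg, mem_filter, mem_univ, true_and] at this
      rw [← this, h i hi]
  · rw [if_neg hU, zero_mul]
    have : ∀ z : Fin n → Bool, ¬ (x ∈ VC ((U, z) : Cl n w) ∧ y ∈ VC ((U, z) : Cl n w)) := by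
      rintro z ⟨h1, h2⟩
      apply hU
      intro i hi
      simp only [VC, mem_filter, mem_univ, true_and] at h1 h2
      simp only [hAg, mem_filter, mem_univ, true_and]
      rw [h1 i hi, h2 i hi]
    simp [this]

theorem pf_PRS : T_PRS := by
  intro n w hw
  have h1 : Fintype.card (Cl n w) = n.choose w * 2 ^ n := by
    rw [Fintype.card_prod, Fintype.card_finset_len]
    simp
  refine ⟨h1, fun x y => two x y, fun x => ?_, fun c => ?_⟩
  · have := two (w := w) x x
    have h2 : Pool.Agent.H80.SH.dist x x = 0 := by simp [Pool.Agent.H80.SH.dist]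
    rw [h2, Nat.sub_zero, ← h1] at this
    simpa using this
  · have := cnt c.1.1 c.2
    rw [c.1.2] at this
    exact this

end Pool.Agent.H13.SH
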